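import Pool.Agent.Q44.LD.Stm
import Pool.Agent.Q154.JQ.LAJ

/-!
# LD-LAJF: the joint law for several forms
-/

set_option autoImplicit false

namespace Pool.Agent.Q234.LD

open Finset Module
open Pool.Agent.Y703.CQ (prs ext)
open Q44.JQ Q154.JQ Q44.LD
open scoped Classical

/-- the restricted block satisfies the conditions -/
theorem sb_ok {s U ι Cc : Type} [Fintype s] [Fintype U] [Fintype ι] {b : Bk s U ι}
    {col : ι → Cc} {t₀ : s} {R : ℕ} (hb : POk b col t₀ R) {J : Finset Cc} (hJ : J.Nonempty)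
    {A : U → Prop} {B : ι → Prop} (hB : ∀ i, B i ↔ col i ∈ J) {ρ : s → ZMod 2}
    (htot : ∑ p, (sb b A B).h p = ρ) : (sb b A B).Ok t₀ ρ R := by
  obtain ⟨c, hc⟩ := hJ
  refine ⟨?_, ?_, ?_, ?_, htot⟩
  · intro u u' huu
    exact hb.rU u u' fun h => huu (Subtype.ext h)
  · intro u i
    exact hb.rJ u i
  · intro μ hμ
    have h1 : (fun u => if h : A u then μ ⟨u, h⟩ else 0) ≠ (0 : U → ZMod 2) := by
      intro h
      apply hμ
      funext u
      have h2 := congrFun h u.1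
      simp only [dif_pos u.2] at h2
      exact h2
    obtain ⟨i, hi, hi0, hi1⟩ := hb.nd c _ h1
    refine ⟨⟨i, (hB i).2 (hi ▸ hc)⟩, hi0, ?_⟩
    intro h
    apply hi1
    have h2 : ∀ u ∈ (univ : Finset U), u ∉ univ.filter A →
        (if h : A u then μ ⟨u, h⟩ else 0) * b.C i u = 0 := by
      intro u _ hu
      rw [dif_neg, zero_mul]
      intro h3
      exact hu (mem_filter.2 ⟨mem_univ _, h3⟩)
    rw [← Finset.sum_subset (filter_subset _ _) h2]
    have h3 : ∑ u ∈ univ.filter A, (if h : A u then μ ⟨u, h⟩ else 0) * b.C i u =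
        ∑ u : {u // A u}, (if h : A u then μ ⟨u, h⟩ else 0) * b.C i u :=
      Finset.sum_subtype (univ.filter A) (fun u => by simp)
        (fun u => (if h : A u then μ ⟨u, h⟩ else 0) * b.C i u)
    rw [h3]
    refine (sum_congr rfl fun u _ => ?_).trans h
    rw [dif_pos u.2]
    rfl
  · intro φ
    have h1 : R * (Fintype.card {u // A u} + 1) ≤ R * (Fintype.card U + 1) :=
      Nat.mul_le_mul_left _ (Nat.add_le_add_right (Fintype.card_subtype_le _) _)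
    refine (h1.trans (hb.many c φ)).trans ?_
    have h2 : (univ.filter fun i => col i = c ∧ b.hJ i = φ) ⊆
        (univ.filter fun i : {i // B i} => (sb b A B).hJ i = φ).image Subtype.val := by
      intro i hi
      rw [mem_filter] at hi
      have hBi : B i := (hB i).2 (hi.2.1 ▸ hc)
      exact mem_image.2 ⟨⟨i, hBi⟩, mem_filter.2 ⟨mem_univ _, hi.2.2⟩, rfl⟩
    exact (card_le_card h2).trans card_image_le

theorem t_LAJF (hLAMF : S_LAMF) (hSS2 : S_SS2) (hCNT : S_CNT) (hPAR : S_PAR0) (hTOR : S_TOR)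
    (hPI : S_PI) (hMOM : S_MOM) : S_LAJF := by
  intro s F Cc _ _ _ κ _ V _ _ _ _ I hI hne t₀ ρ D hs₀ hOk hAdj r ε hε
  obtain ⟨M, δ, hδ, hM⟩ := hMOM (Σ f, κ f)
    (fun x => ((finrank (ZMod 2) (D x.1 x.2).pm : ℕ) : ZMod 2)) (fun x => r x.1 x.2) ε hε
  have h1 : ∀ m : (Σ f, κ f) → ℕ, ∃ R : ℕ, 1 ≤ R ∧ ∀ (U ι : Type) [Fintype U] [Fintype ι]
      [LinearOrder ι] (b : Bk s U ι) (col : ι → Cc) (A : F → U → Prop) (B : F → ι → Prop),
      (∀ f i, B f i ↔ col i ∈ I f) → POk b col t₀ R → (∀ f, ∑ p, (sb b (A f) (B f)).h p = ρ f) →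
      |(∑ α : prs (univ : Finset ι) → ZMod 2,
          ∏ f, (cnt (DD t₀ (D f) (fun k => m ⟨f, k⟩)) (sb b (A f) (B f)) (GmD (V f))
            (ra (B f) α) : ℝ)) / 2 ^ (prs (univ : Finset ι)).card -
        ∏ f, ((Nat.card (UV (V f) (fun k => m ⟨f, k⟩)) : ℝ) *
          ∏ k, (2 : ℝ) ^ (m ⟨f, k⟩ * (m ⟨f, k⟩ + 1) / 2))| ≤ δ := by
    intro m
    have hss := fun f => hSS2 s (κ f) (V f) t₀ (ρ f) (D f) (hs₀ f) (hOk f) (hAdj f)
      (fun k => m ⟨f, k⟩)
    have hok : ∀ f, (DD t₀ (D f) (fun k => m ⟨f, k⟩)).Ok (ρ f) := fun f =>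
      (hPI s (Σ k, Fin (m ⟨f, k⟩)) (fun c => V f c.1) t₀ (ρ f) (fun c => D f c.1)
      (fun c => hs₀ f c.1) (fun c => hOk f c.1)).1
    obtain ⟨R, hR1, hR⟩ := hLAMF s F Cc (fun f => UV (V f) (fun k => m ⟨f, k⟩)) I hI hne t₀ ρ
      (fun f => DD t₀ (D f) (fun k => m ⟨f, k⟩)) (fun f => rfl) hok (fun f => GmD (V f))
      (fun f => SS (V f) (fun k => m ⟨f, k⟩)) (fun f => (hss f).2.1) (fun f => (hss f).2.2) δ hδ
    refine ⟨R, hR1, ?_⟩
    intro U ι _ _ _ b col A B hB hb htot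
    rw [← prod_congr rfl fun f _ => congrArg
      (fun x => (Nat.card (UV (V f) (fun k => m ⟨f, k⟩)) : ℝ) * x) (hss f).1]
    exact hR U ι b col A B hB hb htot
  choose Rf hRf1 hRf using h1
  refine ⟨max ((Fintype.piFinset fun _ : (Σ f, κ f) => range (M + 1)).sup Rf) 1,
    le_max_right _ _, ?_⟩
  intro U ι _ _ _ b col A B hB hb htot
  have hPmono : ∀ {R R' : ℕ}, POk b col t₀ R → R' ≤ R → POk b col t₀ R' := fun hb h =>
    ⟨hb.rU, hb.rJ, hb.nd, fun c φ => (Nat.mul_le_mul_right _ h).trans (hb.many c φ)⟩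
  have hb1 : ∀ f, (sb b (A f) (B f)).Ok t₀ (ρ f) 1 := fun f =>
    mono_ok (sb_ok hb (hne f) (hB f) (htot f)) (le_max_right _ _)
  have hne1 : ∀ f, Nonempty ({u // A f u} ⊕ {i // B f i}) := fun f => by
    obtain ⟨i₀, -⟩ := exists_label (hb1 f) le_rfl 0
    exact ⟨Sum.inr i₀⟩
  have hle : ∀ (α : prs (univ : Finset ι) → ZMod 2) (x : Σ f, κ f),
      finrank (ZMod 2) (V x.1 x.2) ≤ finrank (ZMod 2) (Sel (D x.1 x.2)
        ((sb b (A x.1) (B x.1)).N t₀ (ra (B x.1) α)) (sb b (A x.1) (B x.1)).h) := fun α x =>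
    finrank_le hTOR (D x.1 x.2) (ρ x.1) (hOk x.1 x.2) _ _ (htot x.1)
  obtain ⟨e, he⟩ : ∃ e : (prs (univ : Finset ι) → ZMod 2) → (Σ f, κ f) → ℕ, ∀ α x,
      finrank (ZMod 2) (Sel (D x.1 x.2) ((sb b (A x.1) (B x.1)).N t₀ (ra (B x.1) α))
        (sb b (A x.1) (B x.1)).h) = finrank (ZMod 2) (V x.1 x.2) + e α x :=
    ⟨fun α x => finrank (ZMod 2) (Sel (D x.1 x.2) ((sb b (A x.1) (B x.1)).N t₀ (ra (B x.1) α))
        (sb b (A x.1) (B x.1)).h) - finrank (ZMod 2) (V x.1 x.2), fun α x =>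
      (Nat.add_sub_cancel' (hle α x)).symm⟩
  have hpar : ∀ α x, ((e α x : ℕ) : ZMod 2) =
      ((finrank (ZMod 2) (D x.1 x.2).pm : ℕ) : ZMod 2) := by
    intro α x
    have h2 := hPAR s (V x.1 x.2) ({u // A x.1 u} ⊕ {i // B x.1 i}) (D x.1 x.2) (ρ x.1)
      (hOk x.1 x.2) ((sb b (A x.1) (B x.1)).N t₀ (ra (B x.1) α)) (sb b (A x.1) (B x.1)).h
      (by rw [hs₀ x.1 x.2]; exact rec_of (hb1 x.1) (ra (B x.1) α))
    rw [he α x] at h2
    have h3 : Even (finrank (ZMod 2) (V x.1 x.2)) :=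
      even_of_nd (D x.1 x.2).ω (hOk x.1 x.2).alt (hOk x.1 x.2).nd
    obtain ⟨a, ha⟩ := h3
    rw [ha] at h2
    push_cast at h2
    rw [CharTwo.add_self_eq_zero, zero_add] at h2
    exact h2
  have hΩ : (Fintype.card (prs (univ : Finset ι) → ZMod 2) : ℝ) =
      2 ^ (prs (univ : Finset ι)).card := by
    rw [Fintype.card_fun, ZMod.card, Fintype.card_coe]
    push_cast
    rfl
  have hmain := hM (prs (univ : Finset ι) → ZMod 2) e hpar (by
    intro m hm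
    have hmem : m ∈ Fintype.piFinset fun _ : (Σ f, κ f) => range (M + 1) := by
      rw [Fintype.mem_piFinset]
      intro k
      rw [mem_range]
      exact Nat.lt_succ_of_le (hm k)
    have h2 := hRf m U ι b col A B hB
      (hPmono hb ((Finset.le_sup (f := Rf) hmem).trans (le_max_left _ _))) htot
    have h3 : ∀ α f, (cnt (DD t₀ (D f) (fun k => m ⟨f, k⟩)) (sb b (A f) (B f)) (GmD (V f))
        (ra (B f) α) : ℝ) = (Nat.card (UV (V f) (fun k => m ⟨f, k⟩)) : ℝ) *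
        ∏ k, ∏ i ∈ range (m ⟨f, k⟩), ((2 : ℝ) ^ e α ⟨f, k⟩ - 2 ^ i) := by
      intro α f
      rw [hCNT s (κ f) (V f) t₀ (ρ f) (D f) (hs₀ f) (hOk f) (fun k => m ⟨f, k⟩) {u // A f u}
        {i // B f i} (sb b (A f) (B f)) (hb1 f) (ra (B f) α), card_UV, ← prod_mul_distrib]
      refine prod_congr rfl fun k _ => ?_
      have h4 : (Nat.card (Sel (D f k) ((sb b (A f) (B f)).N t₀ (ra (B f) α))
          (sb b (A f) (B f)).h) : ℝ) = (Nat.card (V f k) : ℝ) * 2 ^ e α ⟨f, k⟩ := by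
        rw [card_two, he α ⟨f, k⟩, pow_add, card_two]
      rw [h4]
      have h5 : ∀ i ∈ range (m ⟨f, k⟩), (Nat.card (V f k) : ℝ) * 2 ^ e α ⟨f, k⟩ -
          (Nat.card (V f k) : ℝ) * 2 ^ i =
          (Nat.card (V f k) : ℝ) * (2 ^ e α ⟨f, k⟩ - 2 ^ i) := fun i _ => by ring
      rw [prod_congr rfl h5, prod_mul_distrib, prod_const, card_range]
    have h7 : ∀ α, ∏ f, (cnt (DD t₀ (D f) (fun k => m ⟨f, k⟩)) (sb b (A f) (B f)) (GmD (V f))
        (ra (B f) α) : ℝ) = (∏ f, (Nat.card (UV (V f) (fun k => m ⟨f, k⟩)) : ℝ)) *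
        ∏ x : Σ f, κ f, ∏ i ∈ range (m x), ((2 : ℝ) ^ e α x - 2 ^ i) := by
      intro α
      rw [Fintype.prod_sigma, ← prod_mul_distrib]
      exact prod_congr rfl fun f _ => h3 α f
    have h8 : ∏ f, ((Nat.card (UV (V f) (fun k => m ⟨f, k⟩)) : ℝ) *
          ∏ k, (2 : ℝ) ^ (m ⟨f, k⟩ * (m ⟨f, k⟩ + 1) / 2)) =
        (∏ f, (Nat.card (UV (V f) (fun k => m ⟨f, k⟩)) : ℝ)) *
        ∏ x : Σ f, κ f, (2 : ℝ) ^ (m x * (m x + 1) / 2) := by
      rw [Fintype.prod_sigma, ← prod_mul_distrib]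
    rw [sum_congr rfl fun α _ => h7 α, ← mul_sum, mul_div_assoc, h8, ← mul_sub, abs_mul] at h2
    rw [hΩ]
    have h6 : (1 : ℝ) ≤ |∏ f, (Nat.card (UV (V f) (fun k => m ⟨f, k⟩)) : ℝ)| := by
      rw [abs_of_nonneg (prod_nonneg fun f _ => Nat.cast_nonneg _)]
      have h9 : ∀ f, 1 ≤ Nat.card (UV (V f) (fun k => m ⟨f, k⟩)) := by
        intro f
        have : Finite (UV (V f) (fun k => m ⟨f, k⟩)) := inferInstance
        have : Nonempty (UV (V f) (fun k => m ⟨f, k⟩)) := ⟨0⟩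
        exact Nat.card_pos
      have h10 : (1 : ℕ) ≤ ∏ f, Nat.card (UV (V f) (fun k => m ⟨f, k⟩)) :=
        Finset.one_le_prod' fun f _ => h9 f
      exact_mod_cast h10
    refine le_trans ?_ h2
    exact le_mul_of_one_le_left (abs_nonneg _) h6)
  rw [hΩ, Fintype.prod_sigma] at hmain
  have hset : (univ.filter fun α : prs (univ : Finset ι) → ZMod 2 =>
        ∀ f k, finrank (ZMod 2) (Sel (D f k) ((sb b (A f) (B f)).N t₀ (ra (B f) α))
          (sb b (A f) (B f)).h) = finrank (ZMod 2) (V f k) + r f k) =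
      univ.filter fun w => e w = fun x => r x.1 x.2 := by
    ext α
    simp only [mem_filter, mem_univ, true_and]
    constructor
    · intro h
      funext x
      have h2 := h x.1 x.2
      rw [he α x] at h2
      omega
    · intro h f k
      rw [he α ⟨f, k⟩, h]
  rw [hset]
  exact hmain

end Pool.Agent.Q234.LD
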